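import Pool.Agent.H58.NK.SZ

/-!
# Module DR: tuples whose product is divisible by `r`
-/

set_option autoImplicit false

open Finset

namespace Pool.Agent.H58.NK

open Pool.Agent.H73.NK

theorem exists_split : ∀ (s : ℕ) (t : Fin s → ℕ) (r : ℕ), r ∣ ∏ i, t i →
    ∃ f : Fin s → ℕ, (∀ i, f i ∣ t i) ∧ ∏ i, f i = r := by
  intro s
  induction s with
  | zero =>
    intro t r hr
    refine ⟨t, fun i => i.elim0, ?_⟩
    rw [Fin.prod_univ_zero] at hr ⊢
    exact (Nat.dvd_one.1 hr).symm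
  | succ s ih =>
    intro t r hr
    rw [Fin.prod_univ_succ] at hr
    obtain ⟨r1, r2, h1, h2, h3⟩ := exists_dvd_and_dvd_of_dvd_mul hr
    obtain ⟨f, hf, hp⟩ := ih (fun i => t i.succ) r2 h2
    refine ⟨Fin.cons r1 f, fun i => ?_, ?_⟩
    · refine Fin.cases ?_ (fun j => ?_) i
      · rw [Fin.cons_zero]
        exact h1
      · rw [Fin.cons_succ]
        exact hf j
    · rw [Fin.prod_univ_succ, Fin.cons_zero]
      simp only [Fin.cons_succ]
      rw [hp]
      exact h3.symm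

theorem mem_fm {s r : ℕ} {f : Fin s → ℕ} (hr : 1 ≤ r) (hf : ∏ i, f i = r) : f ∈ fm s r := by
  unfold fm
  rw [Finset.mem_filter, Fintype.mem_piFinset]
  refine ⟨fun i => ?_, hf⟩
  rw [Nat.mem_divisors]
  exact ⟨hf ▸ Finset.dvd_prod_of_mem f (Finset.mem_univ i), by omega⟩

theorem sum_inv_Icc_le (N : ℕ) : ∑ c ∈ Finset.Icc 1 N, (1 : ℝ) / c ≤ 1 + Real.log N := by
  have h1 := harmonic_le_one_add_log N
  rw [harmonic_eq_sum_Icc] at h1
  push_cast at h1
  calc ∑ c ∈ Finset.Icc 1 N, (1 : ℝ) / c = ∑ c ∈ Finset.Icc 1 N, ((c : ℝ))⁻¹ :=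
        Finset.sum_congr rfl fun c _ => one_div _
    _ ≤ 1 + Real.log N := h1

open Classical in
theorem sum_VW_dvd (z l H : ℝ) (h rho : ℕ) (hl : 0 ≤ l) (hH : (h : ℝ) + 1 ≤ H) (hr : 1 ≤ rho) :
    ∑ a ∈ (VW z l h).filter (fun a => rho ∣ a), (1 : ℝ) / a ≤ (1 + H * l) / rho := by
  set N := ⌊Real.exp ((h + 1) * l)⌋₊ with hN
  have hrho : (0 : ℝ) < rho := by exact_mod_cast hr
  have h1 : ∑ a ∈ (VW z l h).filter (fun a => rho ∣ a), (1 : ℝ) / a ≤
      ∑ c ∈ Finset.Icc 1 N, (1 : ℝ) / (rho * c) := by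
    have h2 : ∑ a ∈ (VW z l h).filter (fun a => rho ∣ a), (1 : ℝ) / a =
        ∑ c ∈ ((VW z l h).filter (fun a => rho ∣ a)).image (fun a => a / rho),
          (1 : ℝ) / (rho * c) := by
      rw [Finset.sum_image]
      · refine Finset.sum_congr rfl fun a ha => ?_
        rw [Finset.mem_filter] at ha
        have h3 : (rho : ℝ) * ((a / rho : ℕ) : ℝ) = a := by
          exact_mod_cast Nat.mul_div_cancel' ha.2
        rw [h3]
      · intro a ha b hb hab
        have ha' := (Finset.mem_filter.1 (Finset.mem_coe.1 ha)).2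
        have hb' := (Finset.mem_filter.1 (Finset.mem_coe.1 hb)).2
        have hab' : a / rho = b / rho := hab
        rw [← Nat.mul_div_cancel' ha', ← Nat.mul_div_cancel' hb', hab']
    rw [h2]
    refine Finset.sum_le_sum_of_subset_of_nonneg ?_ fun c _ _ => by positivity
    intro c hc
    rw [Finset.mem_image] at hc
    obtain ⟨a, ha, rfl⟩ := hc
    rw [Finset.mem_filter] at ha
    have ha1 := VW_pos ha.1
    have ha2 := (mem_VW.1 ha.1).1
    rw [Finset.mem_Icc]
    constructor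
    · exact Nat.div_pos (Nat.le_of_dvd (by omega) ha.2) (by omega)
    · exact (Nat.div_le_self _ _).trans (Nat.le_floor ha2.le)
  have h4 : ∑ c ∈ Finset.Icc 1 N, (1 : ℝ) / (rho * c) =
      (∑ c ∈ Finset.Icc 1 N, (1 : ℝ) / c) / rho := by
    rw [Finset.sum_div]
    refine Finset.sum_congr rfl fun c _ => ?_
    rw [div_div, mul_comm]
  have h5 : Real.log N ≤ H * l := by
    have h6 : 1 ≤ N := by
      rw [hN]
      refine Nat.le_floor ?_
      rw [Nat.cast_one]
      refine Real.one_le_exp (mul_nonneg (by positivity) hl)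
    have h7 : (N : ℝ) ≤ Real.exp ((h + 1) * l) := Nat.floor_le (Real.exp_pos _).le
    calc Real.log N ≤ Real.log (Real.exp ((h + 1) * l)) :=
          Real.log_le_log (by exact_mod_cast h6) h7
      _ = (h + 1) * l := Real.log_exp _
      _ ≤ H * l := mul_le_mul_of_nonneg_right hH hl
  have h8 := sum_inv_Icc_le N
  calc ∑ a ∈ (VW z l h).filter (fun a => rho ∣ a), (1 : ℝ) / a
      ≤ (∑ c ∈ Finset.Icc 1 N, (1 : ℝ) / c) / rho := by rw [← h4]; exact h1
    _ ≤ (1 + H * l) / rho := div_le_div_of_nonneg_right (by linarith) hrho.le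

open Classical in
theorem sum_TT_dvd {s : ℕ} (z l H : ℝ) (h f : Fin s → ℕ) (hl : 0 ≤ l)
    (hH : ∀ i, (h i : ℝ) + 1 ≤ H) (hf : ∀ i, 1 ≤ f i) :
    ∑ t ∈ (TT z l h).filter (fun t => ∀ i, f i ∣ t i), (1 : ℝ) / DT t ≤
      (1 + H * l) ^ s / ((∏ i, f i : ℕ) : ℝ) := by
  have h1 : (TT z l h).filter (fun t => ∀ i, f i ∣ t i) =
      Fintype.piFinset fun i => (VW z l (h i)).filter (fun a => f i ∣ a) := by
    ext t
    rw [Finset.mem_filter, mem_TT, Fintype.mem_piFinset]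
    simp only [Finset.mem_filter]
    exact ⟨fun ⟨h2, h3⟩ i => ⟨h2 i, h3 i⟩, fun h2 => ⟨fun i => (h2 i).1, fun i => (h2 i).2⟩⟩
  rw [h1]
  have h2 : ∑ t ∈ Fintype.piFinset (fun i => (VW z l (h i)).filter (fun a => f i ∣ a)),
      (1 : ℝ) / DT t = ∏ i, ∑ a ∈ (VW z l (h i)).filter (fun a => f i ∣ a), (1 : ℝ) / a := by
    rw [Finset.prod_univ_sum]
    refine Finset.sum_congr rfl fun t _ => ?_
    unfold DT
    push_cast
    rw [Finset.prod_div_distrib, Finset.prod_const_one]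
  rw [h2]
  calc ∏ i, ∑ a ∈ (VW z l (h i)).filter (fun a => f i ∣ a), (1 : ℝ) / a
      ≤ ∏ i, ((1 + H * l) / (f i : ℝ)) :=
        Finset.prod_le_prod (fun i _ => Finset.sum_nonneg fun a _ => by positivity)
          (fun i _ => sum_VW_dvd z l H (h i) (f i) hl (hH i) (hf i))
    _ = (1 + H * l) ^ s / ((∏ i, f i : ℕ) : ℝ) := by
        rw [Finset.prod_div_distrib, Finset.prod_const, Finset.card_univ, Fintype.card_fin]
        push_cast
        rfl

theorem pf_dr : T_DR := by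
  classical
  intro s z l H h r hl hH hr
  have h1 : ∑ t ∈ (TT z l h).filter (fun t => r ∣ DT t), (1 : ℝ) / DT t ≤
      ∑ t ∈ TT z l h, ∑ f ∈ fm s r, if (∀ i, f i ∣ t i) then (1 : ℝ) / DT t else 0 := by
    rw [Finset.sum_filter]
    refine Finset.sum_le_sum fun t _ => ?_
    have hnn : ∀ f ∈ fm s r, (0 : ℝ) ≤ if (∀ i, f i ∣ t i) then (1 : ℝ) / DT t else 0 := by
      intro f _
      split_ifs
      · positivity
      · exact le_rfl
    by_cases hd : r ∣ DT t
    · rw [if_pos hd]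
      obtain ⟨f, hf1, hf2⟩ := exists_split s t r hd
      have h2 := Finset.single_le_sum hnn (mem_fm hr hf2)
      rwa [if_pos hf1] at h2
    · rw [if_neg hd]
      exact Finset.sum_nonneg hnn
  rw [Finset.sum_comm] at h1
  refine h1.trans ?_
  have h3 : ∀ f ∈ fm s r, (∑ t ∈ TT z l h, if (∀ i, f i ∣ t i) then (1 : ℝ) / DT t else 0) ≤
      (1 + H * l) ^ s / r := by
    intro f hf
    rw [← Finset.sum_filter]
    unfold fm at hf
    rw [Finset.mem_filter, Fintype.mem_piFinset] at hf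
    have hf1 : ∀ i, 1 ≤ f i := fun i => Nat.pos_of_mem_divisors (hf.1 i)
    have h4 := sum_TT_dvd z l H h f hl hH hf1
    rw [hf.2] at h4
    exact h4
  have h5 := Finset.sum_le_card_nsmul _ _ _ h3
  rw [nsmul_eq_mul] at h5
  calc _ ≤ ((fm s r).card : ℝ) * ((1 + H * l) ^ s / r) := h5
    _ = (1 + H * l) ^ s * (fm s r).card / r := by ring

end Pool.Agent.H58.NK
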