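import Pool.Agent.H73.NK.Targets

/-!
# Module SZ: simple facts about the tuples
-/

set_option autoImplicit false

open Finset

namespace Pool.Agent.H58.NK

open Pool.Agent.H73.NK

open Classical in
theorem mem_VW {z l : ℝ} {h a : ℕ} : a ∈ VW z l h ↔
    (a : ℝ) < Real.exp ((h + 1) * l) ∧ Real.exp (h * l) ≤ a ∧ Rough z a := by
  unfold VW
  rw [Finset.mem_filter, Finset.mem_range, Nat.lt_ceil]

theorem VW_pos {z l : ℝ} {h a : ℕ} (ha : a ∈ VW z l h) : 1 ≤ a := by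
  have h1 := (mem_VW.1 ha).2.1
  have h2 : (0 : ℝ) < a := lt_of_lt_of_le (Real.exp_pos _) h1
  have : 0 < a := by exact_mod_cast h2
  omega

theorem VW_card {z l H : ℝ} {h : ℕ} (hl : 0 ≤ l) (hH : (h : ℝ) + 1 ≤ H) :
    ((VW z l h).card : ℝ) ≤ Real.exp (H * l) := by
  have h1 : VW z l h ⊆ Finset.Ico 1 ⌈Real.exp ((h + 1) * l)⌉₊ := by
    intro a ha
    rw [Finset.mem_Ico]
    exact ⟨VW_pos ha, Nat.lt_ceil.2 (mem_VW.1 ha).1⟩
  have h2 := Finset.card_le_card h1
  rw [Nat.card_Ico] at h2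
  have h3 : (⌈Real.exp ((h + 1) * l)⌉₊ : ℝ) < Real.exp ((h + 1) * l) + 1 :=
    Nat.ceil_lt_add_one (Real.exp_pos _).le
  have h4 : 0 < ⌈Real.exp ((h + 1) * l)⌉₊ := Nat.ceil_pos.2 (Real.exp_pos _)
  have h5 : (((VW z l h).card + 1 : ℕ) : ℝ) ≤ (⌈Real.exp ((h + 1) * l)⌉₊ : ℝ) := by
    exact_mod_cast (by omega : (VW z l h).card + 1 ≤ ⌈Real.exp ((h + 1) * l)⌉₊)
  push_cast at h5
  have h6 : Real.exp ((h + 1) * l) ≤ Real.exp (H * l) :=
    Real.exp_le_exp.2 (mul_le_mul_of_nonneg_right hH hl)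
  linarith

theorem mem_TT {s : ℕ} {z l : ℝ} {h : Fin s → ℕ} {t : Fin s → ℕ} :
    t ∈ TT z l h ↔ ∀ i, t i ∈ VW z l (h i) := by
  unfold TT
  exact Fintype.mem_piFinset

theorem exp_smul (s : ℕ) (H l : ℝ) : Real.exp (s * H * l) = ∏ _i : Fin s, Real.exp (H * l) := by
  rw [Finset.prod_const, Finset.card_univ, Fintype.card_fin, ← Real.exp_nat_mul]
  congr 1
  ring

theorem pf_sz : T_SZ := by
  intro s z l H h hl hH
  refine ⟨?_, ?_, ?_⟩
  · intro t ht
    rw [mem_TT] at ht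
    have hpos : ∀ i, 1 ≤ t i := fun i => VW_pos (ht i)
    refine ⟨?_, ?_, ?_, ?_⟩
    · unfold DT
      exact Nat.one_le_iff_ne_zero.2 (Finset.prod_ne_zero_iff.2 fun i _ => by
        have := hpos i
        omega)
    · unfold DT
      push_cast
      rw [exp_smul]
      refine Finset.prod_le_prod (fun i _ => by positivity) fun i _ => ?_
      exact (mem_VW.1 (ht i)).1.le.trans
        (Real.exp_le_exp.2 (mul_le_mul_of_nonneg_right (hH i) hl))
    · intro p hp hd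
      unfold DT at hd
      obtain ⟨i, _, hi⟩ := (Prime.dvd_finset_prod_iff hp.prime _).1 hd
      exact (mem_VW.1 (ht i)).2.2 p hp hi
    · intro i
      exact ⟨hpos i, (mem_VW.1 (ht i)).2.1, (mem_VW.1 (ht i)).1⟩
  · unfold TT
    rw [Fintype.card_piFinset]
    push_cast
    rw [exp_smul]
    exact Finset.prod_le_prod (fun i _ => by positivity) fun i _ => VW_card hl (hH i)
  · unfold TT
    rw [Finset.prod_univ_sum]
    refine Finset.sum_congr rfl fun t _ => ?_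
    unfold DT
    push_cast
    rw [Finset.prod_div_distrib, Finset.prod_const_one]

end Pool.Agent.H58.NK
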