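import Pool.Agent.H73.NK.Targets

/-!
# Module TO: Euler function of rough numbers
-/

set_option autoImplicit false

open Finset

namespace Pool.Agent.H58.NK

open Pool.Agent.H73.NK

theorem one_sub_sum_le (s : Finset ℕ) (x : ℕ → ℝ) (h0 : ∀ i ∈ s, 0 ≤ x i) (h1 : ∀ i ∈ s, x i ≤ 1) :
    1 - ∑ i ∈ s, x i ≤ ∏ i ∈ s, (1 - x i) := by
  induction s using Finset.induction_on with
  | empty => simp
  | insert a s ha ih =>
    rw [Finset.sum_insert ha, Finset.prod_insert ha]
    have h2 := ih (fun i hi => h0 i (Finset.mem_insert_of_mem hi))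
      (fun i hi => h1 i (Finset.mem_insert_of_mem hi))
    have h3 := h0 a (Finset.mem_insert_self a s)
    have h4 := h1 a (Finset.mem_insert_self a s)
    have h5 : 0 ≤ ∑ i ∈ s, x i := Finset.sum_nonneg fun i hi => h0 i (Finset.mem_insert_of_mem hi)
    have h6 : (1 - x a) * (1 - ∑ i ∈ s, x i) ≤ (1 - x a) * ∏ i ∈ s, (1 - x i) :=
      mul_le_mul_of_nonneg_left h2 (by linarith)
    nlinarith

theorem pf_to : T_TO := by
  intro D z hD hz hR hlog
  have hz0 : 0 < z := by linarith
  have hlz : 0 < Real.log z := Real.log_pos (by linarith)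
  have hD0 : D ≠ 0 := by omega
  have hp : ∀ p ∈ D.primeFactors, z < p := by
    intro p hp
    exact hR p (Nat.prime_of_mem_primeFactors hp) (Nat.dvd_of_mem_primeFactors hp)
  have h1 : z ^ D.primeFactors.card ≤ (D : ℝ) := by
    calc z ^ D.primeFactors.card = ∏ p ∈ D.primeFactors, z := by rw [Finset.prod_const]
      _ ≤ ∏ p ∈ D.primeFactors, (p : ℝ) :=
        Finset.prod_le_prod (fun _ _ => hz0.le) (fun p hp' => (hp p hp').le)
      _ = ((∏ p ∈ D.primeFactors, p : ℕ) : ℝ) := by push_cast; rfl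
      _ ≤ (D : ℝ) := by
        exact_mod_cast Nat.le_of_dvd (by omega) (Nat.prod_primeFactors_dvd D)
  have h2 : (D.primeFactors.card : ℝ) * Real.log z ≤ Real.log D := by
    rw [← Real.log_pow]
    exact Real.log_le_log (pow_pos hz0 _) h1
  have h3 : (D.primeFactors.card : ℝ) ≤ z / 2 := by
    by_contra hc
    push Not at hc
    have : z / 2 * Real.log z < D.primeFactors.card * Real.log z :=
      mul_lt_mul_of_pos_right hc hlz
    linarith
  have h4 : (1 : ℝ) / 2 ≤ ∏ p ∈ D.primeFactors, (1 - (p : ℝ)⁻¹) := by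
    have h5 := one_sub_sum_le D.primeFactors (fun p => (p : ℝ)⁻¹)
      (fun p _ => by positivity)
      (fun p hp' => by
        have := (Nat.prime_of_mem_primeFactors hp').one_lt
        exact inv_le_one_of_one_le₀ (by exact_mod_cast this.le))
    have h6 : ∑ p ∈ D.primeFactors, (p : ℝ)⁻¹ ≤ D.primeFactors.card • z⁻¹ := by
      refine Finset.sum_le_card_nsmul _ _ _ fun p hp' => ?_
      exact inv_anti₀ hz0 (hp p hp').le
    have h7 : D.primeFactors.card • z⁻¹ ≤ 1 / 2 := by
      rw [nsmul_eq_mul]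
      calc (D.primeFactors.card : ℝ) * z⁻¹ ≤ z / 2 * z⁻¹ :=
            mul_le_mul_of_nonneg_right h3 (by positivity)
        _ = 1 / 2 := by field_simp
    linarith
  have h8 : (D.totient : ℝ) = D * ∏ p ∈ D.primeFactors, (1 - (p : ℝ)⁻¹) := by
    have h9 := Nat.totient_eq_mul_prod_factors D
    have h10 : ((D.totient : ℚ) : ℝ) = ((D * ∏ p ∈ D.primeFactors, (1 - (p : ℚ)⁻¹) : ℚ) : ℝ) := by
      rw [h9]
    push_cast at h10
    exact h10
  rw [h8]
  have hD' : (0 : ℝ) ≤ D := by positivity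
  nlinarith [mul_le_mul_of_nonneg_left h4 hD']

end Pool.Agent.H58.NK
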